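import Pool.Agent.H93.EN.Targets4
import Pool.Agent.H67.BL.G4

/-!
# CHT: elementary properties of charts and of the reflection
-/

set_option autoImplicit false

namespace Pool.Agent.H21.EN

open MeasureTheory Set Metric Filter Topology Pool.Agent.H93.EN
open Pool.Agent.H93.BL hiding T_B1 T_B2 T_B3 T_SB T_SC

section

variable {ι : Type} (P : Polygon ι)

lemma sg_ip (j : ι) (y : ℂ) : sg P j y = ip (y - P.p j) (P.n j) := (P.ip_n j _).symm

lemma aff_sub (j : ι) (y z : ℂ) : P.aff j y - P.aff j z = P.refl j (y - z) := by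
  rw [P.aff_eq, P.aff_eq, add_sub_add_left_eq_sub, ← P.refl_sub, sub_sub_sub_cancel_right]

lemma sg_aff (j : ι) (y : ℂ) : sg P j (P.aff j y) = -sg P j y := by
  rw [sg_ip, sg_ip, P.aff_eq, add_sub_cancel_left, P.ip_refl_n]

lemma aff_eq2 (j : ι) (y : ℂ) : P.aff j y = y - ((2 * sg P j y : ℝ) : ℂ) * P.n j := by
  rw [P.aff_eq, P.refl_eq, sg_ip]
  ring

/-- `sg` is affine -/
lemma sg_seg (j : ι) (x y : ℂ) (a b : ℝ) (hab : a + b = 1) :
    sg P j (a • x + b • y) = a * sg P j x + b * sg P j y := by
  have e : a • x + b • y - P.p j = (a : ℂ) * (x - P.p j) + (b : ℂ) * (y - P.p j) := by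
    have h1 : (a : ℂ) + b = 1 := by exact_mod_cast hab
    rw [Complex.real_smul, Complex.real_smul]
    linear_combination (P.p j) * h1
  unfold sg
  rw [e, cr_add_right, cr_smul_right, cr_smul_right]

end

theorem cht : T_CHT := by
  intro ι P
  have hmono : ∀ (x x' : ℂ) (R R' : ℝ), dist x' x + R' ≤ R → ball x' R' ⊆ ball x R :=
    fun x x' R R' h => ball_subset_ball' (by linarith)
  have h3 : ∀ (x : ℂ) (R : ℝ) (j : ι), x ∈ P.Ω → 0 < R → Chart P x R (some j) → 0 < sg P j x := by
    intro x R j hx hR hc
    rcases hc.1.lt_or_eq with h | h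
    · exact h
    · exact absurd hx (Pool.Agent.H67.BL.G4.not_mem_of_segment P j x
        (openSegment_subset_segment ℝ _ _ (hc.2.2 x (mem_ball_self hR) h.symm)))
  refine ⟨?_, ?_, h3, ?_, ?_⟩
  · intro x x' R R' τ hc hd hs
    rcases τ with _ | j
    · exact (hmono x x' R R' hd).trans hc
    · exact ⟨hs j rfl, fun y hy hy' => hc.2.1 y (hmono x x' R R' hd hy) hy',
        fun y hy hy' => hc.2.2 y (hmono x x' R R' hd hy) hy'⟩
  · intro j y z
    refine ⟨sg_aff P j y, ?_, fun hz hy => ?_⟩
    · rw [dist_eq_norm, dist_eq_norm, aff_sub, P.norm_refl]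
    · rw [dist_eq_norm, dist_eq_norm]
      refine le_of_sq_le_sq ?_ (norm_nonneg _)
      rw [← ip_self, ← ip_self]
      have e1 : P.aff j y - z = (y - z) - ((2 * sg P j y : ℝ) : ℂ) * P.n j := by
        rw [aff_eq2]
        ring
      have e2 : ip (y - z) (P.n j) = sg P j y - sg P j z := by
        rw [sg_ip, sg_ip, ← ip_sub_left, sub_sub_sub_cancel_right]
      obtain ⟨w, hw⟩ : ∃ w, w = y - z := ⟨_, rfl⟩
      rw [← hw] at e1 e2 ⊢
      rw [e1, ip_sub_left, ip_sub_right, ip_sub_right, ip_smul_left, ip_smul_left, ip_smul_right,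
        ip_smul_right, P.ip_n_n, ip_comm (P.n j), e2]
      nlinarith [mul_nonneg (neg_nonneg.2 hy) hz]
  · intro x y R τ hx hc hy
    have hR : 0 < R := dist_nonneg.trans_lt (mem_ball.1 hy)
    have hxb : x ∈ ball x R := mem_ball_self hR
    have hsb : segment ℝ x y ⊆ ball x R := (convex_ball x R).segment_subset hxb hy
    constructor
    · rintro hseg j rfl
      by_contra hcon
      push Not at hcon
      have hp := h3 x R j hx hR hc
      have hd : 0 < sg P j x - sg P j y := by linarith
      obtain ⟨b, hb⟩ : ∃ b, b = sg P j x / (sg P j x - sg P j y) := ⟨_, rfl⟩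
      have hb0 : 0 ≤ b := by rw [hb]; exact div_nonneg hp.le hd.le
      have hb1 : b ≤ 1 := by
        rw [hb, div_le_one hd]
        linarith
      have hz : (1 - b) • x + b • y ∈ segment ℝ x y :=
        ⟨1 - b, b, by linarith, hb0, by ring, rfl⟩
      have hsz : sg P j ((1 - b) • x + b • y) = 0 := by
        rw [sg_seg P j x y _ _ (by ring)]
        have : b * (sg P j x - sg P j y) = sg P j x := by
          rw [hb, div_mul_cancel₀ _ hd.ne']
        linarith
      exact Pool.Agent.H67.BL.G4.not_mem_of_segment P j _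
        (openSegment_subset_segment ℝ _ _ (hc.2.2 _ (hsb hz) hsz)) (hseg hz)
    · intro h
      rcases τ with _ | j
      · exact hsb.trans hc
      · have hp := h3 x R j hx hR hc
        have hq := h j rfl
        intro z hz
        refine hc.2.1 z (hsb hz) ?_
        obtain ⟨a, b, ha, hb, hab, rfl⟩ := hz
        rw [sg_seg P j x y _ _ hab]
        rcases ha.lt_or_eq with h' | h'
        · have := mul_pos h' hp
          have := mul_nonneg hb hq.le
          linarith
        · have hb' : b = 1 := by linarith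
          rw [← h', hb', zero_mul, zero_add, one_mul]
          exact hq
  · intro j
    let L : ℂ →ₗ[ℝ] ℝ :=
      { toFun := fun v => cr (P.u j) v
        map_add' := fun v w => cr_add_right _ _ _
        map_smul' := fun t v => by
          rw [Complex.real_smul, cr_smul_right]
          rfl }
    let A : AffineSubspace ℝ ℂ := AffineSubspace.mk' (P.p j) (LinearMap.ker L)
    have hA : A ≠ ⊤ := by
      intro h
      have h1 : P.p j + P.n j ∈ A := by
        rw [h]
        exact AffineSubspace.mem_top _ _ _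
      have h2 : P.p j + P.n j -ᵥ P.p j ∈ LinearMap.ker L := AffineSubspace.mem_mk'.1 h1
      rw [vsub_eq_sub, add_sub_cancel_left, LinearMap.mem_ker] at h2
      have h3 : cr (P.u j) (P.n j) = 0 := h2
      rw [← P.ip_n, P.ip_n_n] at h3
      exact one_ne_zero h3
    have h1 : {y : ℂ | sg P j y = 0} = (A : Set ℂ) := by
      ext y
      rw [SetLike.mem_coe]
      constructor
      · intro h
        exact AffineSubspace.mem_mk'.2 (LinearMap.mem_ker.2 h)
      · intro h
        exact LinearMap.mem_ker.1 (AffineSubspace.mem_mk'.1 h)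
    rw [h1]
    exact Measure.addHaar_affineSubspace volume A hA

end Pool.Agent.H21.EN
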