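import Pool.Agent.H93.EN.Targets4
import Pool.Agent.H67.BL.G4
import Pool.Agent.H89.BL.L6

/-!
# DAT: the system of local extensions of an invariant function
-/

set_option autoImplicit false

namespace Pool.Agent.H21.EN

open MeasureTheory Set Metric Filter Topology Pool.Agent.H93.EN
open Pool.Agent.H93.BL hiding T_B1 T_B2 T_B3 T_SB T_SC

variable {ι : Type}

lemma VV_ne (P : Polygon ι) : (VV P).Nonempty := by
  by_contra hcon
  rw [not_nonempty_iff_eq_empty] at hcon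
  have hι : IsEmpty ι := by
    constructor
    intro i
    have : P.p i ∈ VV P := ⟨i, Or.inl rfl⟩
    rw [hcon] at this
    exact this
  have h1 : frontier P.Ω = ∅ := by
    rw [P.frontier_eq]
    exact iUnion_of_empty _
  have h2 : IsClopen P.Ω := isClopen_iff_frontier_eq_empty.2 h1
  have h3 : P.Ω = univ := h2.eq_univ P.isConnected.nonempty
  have h4 := P.isBounded
  rw [h3] at h4
  exact NormedSpace.unbounded_univ ℝ ℂ h4

/-- comparison of the charts at a point of the table near `x` -/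
lemma cmp (h2 : T_CHT) (h3 : T_AG) (P : Polygon ι) (F : ℂ → ℂ → ℝ) {κ ρ : ℝ} {x x' : ℂ}
    {τ τ' : Option ι} (hκ : 0 < κ) (hκ4 : κ ≤ 1 / 4) (hρ : 0 < ρ) (hx' : x' ∈ P.Ω)
    (hc : Chart P x (κ * ρ) τ) (hd : dist x' x ≤ κ * ρ / 5) {ρ' : ℝ}
    (hρ' : ρ - dist x' x ≤ ρ') (hc' : Chart P x' (κ * ρ') τ')
    (hsg : ∀ j, τ = some j → 0 ≤ sg P j x') :
    Agr (Phi P F τ') (Phi P F τ) x (κ * ρ / 2) := by
  obtain ⟨m1, -⟩ := h2 ι P
  obtain ⟨s, hs⟩ : ∃ s, s = dist x' x := ⟨_, rfl⟩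
  have hs0 : 0 ≤ s := by rw [hs]; exact dist_nonneg
  rw [← hs] at hd hρ'
  have hκρ : 0 < κ * ρ := mul_pos hκ hρ
  obtain ⟨R, hR⟩ : ∃ R, R = κ * ρ - κ * s - s := ⟨_, rfl⟩
  have hκs : κ * s ≤ 1 / 4 * s := mul_le_mul_of_nonneg_right hκ4 hs0
  have hκs0 : 0 ≤ κ * s := mul_nonneg hκ.le hs0
  have hR2 : κ * ρ / 2 + s ≤ R := by rw [hR]; linarith
  have hR0 : 0 < R := by linarith
  have c1 : Chart P x' R τ := by
    refine m1 x x' (κ * ρ) R τ hc ?_ hsg
    rw [← hs, hR]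
    linarith
  have c2 : Chart P x' R τ' := by
    refine m1 x' x' (κ * ρ') R τ' hc' ?_ ?_
    · rw [dist_self, hR]
      have : κ * (ρ - s) ≤ κ * ρ' := mul_le_mul_of_nonneg_left hρ' hκ.le
      linarith
    · intro j hj
      rw [hj] at hc'
      exact hc'.1
  have h := h3 ι P F x' R τ' τ hx' hR0 c2 c1
  unfold Agr at h ⊢
  filter_upwards [h] with y hy hyb w
  refine hy ?_ w
  rw [mem_ball] at hyb ⊢
  calc dist y x' ≤ dist y x + dist x x' := dist_triangle _ _ _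
    _ < κ * ρ / 2 + s := by
      rw [dist_comm x x', ← hs]
      linarith
    _ ≤ R := hR2

theorem dat (h1 : T_LS) (h2 : T_CHT) (h3 : T_AG) (h4 : T_LI) (h5 : T_MU) (h6 : T_LW)
    (h7 : T_BD) : T_DAT := by
  classical
  intro ι _ P F hF
  obtain ⟨κ, hκ0, hκ4, hx, hj⟩ := h1 ι P
  obtain ⟨m1, m2, m3, m4, m5⟩ := h2 ι P
  obtain ⟨τ, hτ⟩ : ∃ τ : ℂ → Option ι, ∀ x ∈ P.Ω, Chart P x (κ * infDist x (VV P)) (τ x) := by
    refine ⟨fun x => if h : x ∈ P.Ω then (hx x h).choose else none, fun x h => ?_⟩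
    have e : (fun x => if h : x ∈ P.Ω then (hx x h).choose else none) x = (hx x h).choose :=
      dif_pos h
    rw [e]
    exact (hx x h).choose_spec
  have hfin : (VV P).Finite := Pool.Agent.H89.BL.L6.vtx_finite P
  have hcl : IsClosed (VV P) := hfin.isClosed
  have hpos : ∀ x, ¬ P.Vtx x → 0 < infDist x (VV P) := fun x hxv =>
    (hcl.notMem_iff_infDist_pos (VV_ne P)).1 hxv
  have hposΩ : ∀ x ∈ P.Ω, 0 < infDist x (VV P) := fun x hxΩ =>
    hpos x fun hv => Pool.Agent.H67.BL.G4.not_mem_of_vtx P x hv hxΩ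
  have hsgc : ∀ j, Continuous (sg P j) := by
    intro j
    exact (continuous_cr_right (P.u j)).comp (continuous_id.sub continuous_const)
  have hdist : ∀ x x', infDist x (VV P) - dist x' x ≤ infDist x' (VV P) := by
    intro x x'
    have := infDist_le_infDist_add_dist (s := VV P) (x := x) (y := x')
    rw [dist_comm] at this
    linarith
  refine ⟨⟨P, VV P, κ, F, fun x => Phi P F (τ x), hfin, VV_ne P, fun b hb => Or.inl hb, hκ0, hκ4,
    h7 ι P F hF none, hF.out, hF.even, fun x => h7 ι P F hF (τ x),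
    fun x hxΩ => h4 ι P F hF x _ (τ x) (hτ x hxΩ), ?_, ?_, ?_, ?_, ?_, ?_⟩, rfl, rfl, rfl⟩
  · intro x hxΩ
    have hρ := hposΩ x hxΩ
    have hκρ : 0 < κ * infDist x (VV P) := mul_pos hκ0 hρ
    have hnb : ∀ᶠ x' in 𝓝 x, x' ∈ P.Ω ∧ dist x' x ≤ κ * infDist x (VV P) / 5 ∧
        ∀ j, τ x = some j → 0 ≤ sg P j x' := by
      have n1 : ∀ᶠ x' in 𝓝 x, x' ∈ P.Ω := P.isOpen.mem_nhds hxΩ
      have n2 : ∀ᶠ x' in 𝓝 x, dist x' x ≤ κ * infDist x (VV P) / 5 :=
        Filter.Eventually.mono (ball_mem_nhds x (show 0 < κ * infDist x (VV P) / 5 by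
          linarith)) fun x' hx' => (mem_ball.1 hx').le
      refine n1.and (n2.and ?_)
      rcases hτx : τ x with _ | j
      · exact Filter.Eventually.of_forall fun x' j hj' => by simp at hj'
      · have hc := hτ x hxΩ
        rw [hτx] at hc
        have hp := m3 x _ j hxΩ hκρ hc
        filter_upwards [(hsgc j).continuousAt.eventually (lt_mem_nhds hp)] with x' hx' j' hj'
        rw [← Option.some.inj hj']
        exact le_of_lt hx'
    obtain ⟨s, hs, hball⟩ := Metric.eventually_nhds_iff_ball.1 hnb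
    refine ⟨s, hs, fun x' hx' => ?_⟩
    obtain ⟨a1, a2, a3⟩ := hball x' hx'
    exact cmp h2 h3 P F hκ0 hκ4 hρ a1 (hτ x hxΩ) a2 (hdist x x') (hτ x' a1) a3
  · intro x hxΩ
    refine Filter.Eventually.of_forall fun y hy hseg w => ?_
    have h8 := (m4 x y _ (τ x) hxΩ (hτ x hxΩ) hy).1 hseg
    rcases hτx : τ x with _ | j
    · rfl
    · have h9 := h8 j hτx
      change (if 0 < sg P j y then F y w else F (P.aff j y) (P.refl j w)) = F y w
      rw [if_pos h9]
  · exact ⟨2, two_pos, fun x hxΩ δ hδ hδ' =>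
      h5 ι P F hF x _ (τ x) hxΩ (hτ x hxΩ) δ ⟨hδ, hδ'⟩⟩
  · exact ⟨1 / 2, by norm_num, fun y hyΩ δ hδ hδ' =>
      h6 ι P y _ (τ y) hyΩ (hτ y hyΩ) δ ⟨hδ, hδ'⟩⟩
  · intro j x₀ hx₀
    have hρ := hpos x₀ (Pool.Agent.H67.BL.G4.vtx_not_mem P j x₀ hx₀)
    have hκρ : 0 < κ * infDist x₀ (VV P) := mul_pos hκ0 hρ
    have hc := hj j x₀ hx₀
    refine ⟨κ * infDist x₀ (VV P) / 5, by linarith, Phi P F (some j), h7 ι P F hF (some j),
      h4 ι P F hF x₀ _ (some j) (m1 x₀ x₀ _ _ (some j) hc (by rw [dist_self]; linarith)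
        fun j' hj' => by rw [← Option.some.inj hj']; exact hc.1), ?_, fun x hxb hxs => ?_⟩
    · have h0 : ∀ᵐ y : ℂ, sg P j y ≠ 0 := by
        rw [ae_iff]
        have : {y : ℂ | ¬ sg P j y ≠ 0} = {y : ℂ | sg P j y = 0} := by
          ext y
          simp
        rw [this]
        exact m5 j
      filter_upwards [h0] with y hy _ w
      have e1 := (m2 j y y).1
      change (if 0 < sg P j (P.aff j y) then F (P.aff j y) (P.refl j w) else
        F (P.aff j (P.aff j y)) (P.refl j (P.refl j w))) =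
        if 0 < sg P j y then F y w else F (P.aff j y) (P.refl j w)
      rw [e1]
      rcases lt_or_gt_of_ne hy with h | h
      · rw [if_pos (by linarith), if_neg (by linarith)]
      · rw [if_neg (by linarith), if_pos h, P.aff_aff, P.refl_refl]
    · have hd : dist x x₀ < κ * infDist x₀ (VV P) / 5 := hxb
      have hxΩ : x ∈ P.Ω := hc.2.1 x (mem_ball.2 (by linarith)) hxs
      exact ⟨hxΩ, cmp h2 h3 P F hκ0 hκ4 hρ hxΩ hc hd.le (hdist x₀ x) (hτ x hxΩ)
        fun j' hj' => by rw [← Option.some.inj hj']; exact hxs.le⟩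
  · intro v hv hvB
    exact absurd hv hvB

end Pool.Agent.H21.EN
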